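import Mathlib
import Pool.Agent.KS6_24.ST.JLDefs
import Pool.Agent.KS6_24.ST.JLProofs

set_option autoImplicit false

/-!
# The joint law of the invariant sets of the Collatz map along `n, 3 n, 9 n, ...`

Let `s = 1` or `s = -1`. Two integers are in the same class if their trajectories meet. The classes of integers of sign
`s` have densities `μ c > 0` with sum `1`. A set `S` with `x ∈ S` iff `C x ∈ S` is a union of classes, for example the set
of the integers that do not reach the known cycles, if there are any.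

Let `n` be uniform in `[1, N]`, and let `N` tend to infinity. The levels `i a` are at most `(log N) ^ 0.97`, the shifts
`|r a|` at most `3 ^ i a`; all errors are `o(1)`, uniformly in the levels and shifts.

* Joint law: the classes of the `k` integers `s (3 ^ (i a) n + r a)` have, up to `o(1)` in total variation, the following
  law. Coalescing simple random walks start at `2 i a`; after `⌊2 log N / log (4/3)⌋` steps the occupied positions get
  independent classes of law `μ`.
* Closed form: for an invariant set `S` of density `δ` let `f` be `1` on `S` and `-1` off `S`. The mean of the product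
  of the `f (s (3 ^ (i a) n + r a))`, `i` increasing, is the Pfaffian of the two-point values
  `1 - 4 δ (1 - δ) erf ((i b - i a) √(log (4/3) / (2 log N)))`, bordered by the mean `2 δ - 1` if `k` is odd.
* Pair law: the probability that `s n` and `s (3 ^ i n + r)` are both in `S` is `δ² + δ (1 - δ) erfc (...)`.
* Law of large numbers: the proportion of members of `S` among the `K N` integers `s 3 ^ i n`, `i < K N`, tends to `δ`
  in probability if and only if `K N / √(log N)` tends to infinity.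
* Meeting law: the trajectories of `s n` and `s (3 ^ i n + r)` meet with probability `Θ + (1 - Θ) erfc (...)`, and
  `Θ = 1` iff all trajectories of integers of sign `s` meet.
* Q1: if `c √(log N) ≤ i N ≤ (log N) ^ 0.97`, then all integers of sign `s` reach the known cycles if and only if
  `s 3 ^ (i N) n` reaches them whenever `s n` does, with the exception of `o(N)` of the `n ≤ N`.
-/

namespace Pool.Agent.Results.MP_d02c56_nt.JointLaw

open Filter Topology

open Pool.Agent.KS6_24.LN Pool.Agent.H499R2.CO Pool.Agent.Y965.SI Finset Pool.Agent.KS6_24.ST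
open Pool.Agent.T6.H47.CL (Er Er_eq Er_le_one Er_nonneg Er_mono)
open Pool.Agent.H499R2.ND (Ci Kc Kc_self Kc_symm Kc_trans structure_full)

/-- **The joint law of the invariant sets of the Collatz map.** -/
theorem result :
    -- the classes of integers whose trajectories meet: densities, joint law
    (∀ s : ℤ, s = 1 ∨ s = -1 → ∃ μ : {a : ℤ // IsRep s a} → ℝ, HasSum μ 1 ∧
      (∀ a, 0 < μ a ∧ HasDensity s {x | Meet x a} (μ a)) ∧ ∀ k : ℕ, ClassLaw s μ k) ∧
    -- every invariant set with an integer of sign `s`: density, correlations, pair law, law of large numbers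
    (∀ s : ℤ, s = 1 ∨ s = -1 → ∀ S : Set ℤ, Invariant S → (∃ x ∈ S, 0 < s * x) →
      ∃ δ : ℝ, 0 < δ ∧ δ ≤ 1 ∧ (δ = 1 ↔ ∀ x : ℤ, 0 < s * x → x ∈ S) ∧
        HasDensity s S δ ∧ Correlations s S δ ∧ Pairs s S δ ∧
        ∀ K : ℕ → ℕ, (∀ᶠ N : ℕ in atTop, (K N : ℝ) ≤ Real.log N ^ (0.99 : ℝ)) → (∃ x : ℤ, 0 < s * x ∧ x ∉ S) →
          (LLN s S δ K ↔ Tendsto (fun N : ℕ => (K N : ℝ) / √ (Real.log N)) atTop atTop)) ∧
    -- the meeting law
    (∀ s : ℤ, s = 1 ∨ s = -1 → ∃ Θ : ℝ, 0 < Θ ∧ Θ ≤ 1 ∧ (Θ = 1 ↔ ∀ x y : ℤ, 0 < s * x → 0 < s * y → Meet x y) ∧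
      Meetings s Θ) ∧
    -- Q1 for the integers of sign `s`
    (∀ s : ℤ, s = 1 ∨ s = -1 → ∀ (i : ℕ → ℕ) (c : ℝ), 0 < c → (∀ᶠ N : ℕ in atTop, c * √ (Real.log N) ≤ i N) →
      (∀ᶠ N : ℕ in atTop, (i N : ℝ) ≤ Real.log N ^ (0.97 : ℝ)) →
      ((∀ x : ℤ, 0 < s * x → Reaches x) ↔
        Tendsto (fun N : ℕ => prob N fun n => Reaches (s * n) ∧ ¬ Reaches (s * (3 ^ i N * n))) atTop (𝓝 0))) := by
  have hen : ∀ s : ℤ, s = 1 ∨ s = -1 → S_EN3 s := fun s hs => en3_all hs
  have hj : ∀ s : ℤ, s = 1 ∨ s = -1 → S_JOINT s := fun s hs => joint s hs (kl_all hs)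
  have hjs : ∀ s : ℤ, s = 1 ∨ s = -1 → S_JSET s := fun s hs => jset s (hj s hs)
  have h : ∀ s : ℤ, s = 1 ∨ s = -1 → S_PAIRLAW97 s := fun s hs => pairlaw97 s (hjs s hs)
  refine ⟨fun s hs => ?_, fun s hs S hS hex => ?_, fun s hs => meeting_law hs (h s hs),
    fun s hs _ _ hc h1 h2 => q1_sign hs (h s hs) (hen s hs) hc h1 h2⟩
  · obtain ⟨μ, hsum, hμ⟩ := classes hs
    exact ⟨μ, hsum, fun a => ⟨(hμ a).1, density_of_mz (hμ a).2.2⟩, fun k => joint_law hs (hjs s hs) hsum hμ k⟩
  · obtain ⟨δ, h1, h2, h3, h4, h5, h6⟩ := law hs (h s hs) (hen s hs) hS hex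
    obtain ⟨δ', h1', h2', h3'⟩ := dens hs (conj s S) (conj_inv hs hS) (sign_of_pos hs hex)
    have e : δ' = δ := tendsto_nhds_unique (density_of_mz h3') h4
    rw [e] at h3'
    exact ⟨δ, h1, h2, h3, h4, correlations hs (hj s hs) hS h1.le h2 h3', h5, h6⟩

end Pool.Agent.Results.MP_d02c56_nt.JointLaw
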