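import Mathlib
import Pool.Agent.KS6_24.ST.LPDefs2
import Pool.Agent.KS6_24.ST.LPProofs2

set_option autoImplicit false

/-!
# The joint law of the Collatz classes along linear forms, proportional forms included

Two integers are in the same class if their trajectories meet. The classes of the integers of sign `s` have densities
`μ s a > 0` with sum `1`. A set `S` with `x ∈ S` iff `C x ∈ S` is a union of classes. Two linear forms `A, B` with integer
coefficients in `r ≥ 1` variables are related if `A = 2 ^ x 3 ^ y B` with integers `x, y`. Let `A₁, ..., A_k` be nonzero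
linear forms, `q₁, ..., q_k` integers, and let `n` be a random point of the box `[1, N] ^ r`, `N → ∞`.

* If `A` and `B` are related, the trajectories of `A(n) + q` and `B(n) + q'` meet for almost all `n`.
* If no two of the `A_a` are related (for example `n, 5 n, - n`, or `n` and `N - n`), the classes of the numbers
  `A_a(n) + q_a` are asymptotically independent, in total variation: on every convex set where these numbers have the signs
  `s_a` their joint law is the product of the laws `μ (s_a)`, uniformly for all convex sets and all constants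
  `|q_a| ≤ H N` (`AffineLaw`).
* So the joint law of the classes is known for all families of affine forms (`JointLaw`): in each class of related forms
  the numbers are in the same class, and these classes are independent.
* The binary problem: the number of the `n < N` with `s n ∈ S` and `s (N - n) ∈ T` is `(δ δ' + o(1)) N` for all invariant
  sets `S`, `T` of densities `δ`, `δ'`. If `S` and `T` have positive members, every large `N` is the sum of a positive member
  of `S` and a positive member of `T`; so every large `N` is a sum of two positive integers whose trajectories reach `1`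
  and, if the conjecture of Collatz fails, of two positive integers whose trajectories do not. All positive integers
  reach `1` iff the trajectories of `n` and `N - n` meet for all but `o(N)` of the `n < N`.
* Linear equations: let `a_i` be nonzero integers, `s_i` signs and `S_i` invariant sets with the densities `δ_i` on the
  integers of sign `s_i`, and let `j ≥ 2` (or `j = 1` and `s_1 a_1 ≠ -2 ^ x 3 ^ y s_0 a_0` for all integers `x, y`). The
  number of the solutions of `a_0 x_0 + ... + a_j x_j = c` in `[1, N]` and in a convex set with `s_i x_i ∈ S_i` for all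
  `i` is the product of the `δ_i` times the number of all the solutions there, up to `o(N ^ j)`, uniformly in `c` and the
  convex set.
* Collatz: if `A, B` are not related and both positive at a point with positive coordinates, all positive integers reach
  `1` iff the trajectories of `A(n) + q` and `B(n) + q'` meet for almost all `n` with `A(n), B(n) > 0`; for example those
  of `n` and `5 n`.
* Q1: if `A, B` have different signs at a point with positive coordinates, all integers reach the known cycles iff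
  `A(n) + q` and `B(n) + q'` have the same fate for almost all `n` with `A(n) B(n) < 0`; for example `n` and `- n`.

Known before (library): the densities; related forms in one variable (MeetingRate, MP_005f52_nt); for invariant sets the
systems of pairwise linearly independent forms (GowersNorms, MP_2d22f3_nt). New: proportional forms that are not related,
in any number and together with all others, and the consequences for two forms in one variable.
-/

namespace Pool.Agent.Results.MP_d02c56_nt.LinearPatterns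

open Filter Topology


open Pool.Agent.KS6_24.LN Pool.Agent.H499R2.CO Pool.Agent.Y965.SI Finset Pool.Agent.KS6_24.ST
open Pool.Agent.H499R2.ND (Ci Kc Kc_self Kc_symm Kc_trans structure_full)


/-- **Linear patterns in the Collatz-invariant sets.** -/
theorem result :
    ∃ μ : ℤ → ℤ → ℝ, ClassLaws μ ∧
      -- the joint law of the classes along any family of affine forms
      (∀ (r k : ℕ) (A : Fin k → Fin r → ℤ), (∀ a, A a ≠ 0) →
        ∃ (m : ℕ) (B : Fin m → Fin r → ℤ) (g : Fin k → Fin m), Splits B g A) ∧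
      (∀ (r m k : ℕ) (B : Fin m → Fin r → ℤ) (g : Fin k → Fin m) (A : Fin k → Fin r → ℤ) (q : Fin k → ℤ) (s : Fin m → ℤ),
        Splits B g A → (∀ b, s b = 1 ∨ s b = -1) → JointLaw μ B g A q s) ∧
      -- pairwise unrelated forms: uniformly in the constants up to `H N`
      (∀ (r k : ℕ) (A : Fin k → Fin r → ℤ) (s : Fin k → ℤ), (∀ a, A a ≠ 0) → (∀ a b, a ≠ b → ¬ Related (A a) (A b)) →
        (∀ a, s a = 1 ∨ s a = -1) → AffineLaw μ A s) ∧
      -- every invariant set has densities
      (∀ s : ℤ, s = 1 ∨ s = -1 → ∀ S : Set ℤ, Invariant S → ∃ δ : ℝ, HasDensity s S δ ∧ 0 ≤ δ ∧ δ ≤ 1 ∧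
        (0 < δ ↔ ∃ x ∈ S, 0 < s * x) ∧ (δ = 1 ↔ ∀ x : ℤ, 0 < s * x → x ∈ S)) ∧
      -- invariant sets along pairwise unrelated forms
      (∀ (r k : ℕ) (A : Fin k → Fin r → ℤ) (s : Fin k → ℤ), (∀ a, A a ≠ 0) → (∀ a b, a ≠ b → ¬ Related (A a) (A b)) →
        (∀ a, s a = 1 ∨ s a = -1) → ∀ S : Fin k → Set ℤ, (∀ a, Invariant (S a)) →
        ∀ δ : Fin k → ℝ, (∀ a, HasDensity (s a) (S a) (δ a)) → ∀ ε : ℝ, 0 < ε → ∀ H : ℕ, ∀ᶠ N : ℕ in atTop,
          ∀ q : Fin k → ℤ, (∀ a, |q a| ≤ H * N) → ∀ K : Set (Fin r → ℝ), Region A q s K →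
            |prob N (fun n => Mem K n ∧ ∀ a, lin (A a) n + q a ∈ S a) - prob N (fun n => Mem K n) * ∏ a, δ a| ≤ ε) ∧
      -- the binary problem, linear equations
      (∀ s : ℤ, s = 1 ∨ s = -1 → ∀ S T : Set ℤ, Invariant S → Invariant T → ∀ δ δ' : ℝ, HasDensity s S δ → HasDensity s T δ' →
        Tendsto (fun N : ℕ => ({n : ℤ | 0 < n ∧ n < N ∧ s * n ∈ S ∧ s * (N - n) ∈ T}.ncard : ℝ) / N) atTop (𝓝 (δ * δ'))) ∧
      (∀ s : ℤ, s = 1 ∨ s = -1 → ∀ S T : Set ℤ, Invariant S → Invariant T → (∃ x ∈ S, 0 < s * x) → (∃ x ∈ T, 0 < s * x) →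
        ∀ᶠ N : ℕ in atTop, ∃ x ∈ S, ∃ y ∈ T, 0 < s * x ∧ 0 < s * y ∧ x + y = s * N) ∧
      (∀ᶠ N : ℕ in atTop, ∃ x y : ℤ, 0 < x ∧ 0 < y ∧ x + y = N ∧ (∃ k : ℕ, C^[k] x = 1) ∧ ∃ k : ℕ, C^[k] y = 1) ∧
      ((∀ x : ℤ, 0 < x → ∃ k : ℕ, C^[k] x = 1) ↔
        Tendsto (fun N : ℕ => ({n : ℤ | 0 < n ∧ n < N ∧ Meet n (N - n)}.ncard : ℝ) / N) atTop (𝓝 1)) ∧
      (∀ j : ℕ, 1 ≤ j → ∀ a s : Fin (j + 1) → ℤ, (∀ i, a i ≠ 0) → (∀ i, s i = 1 ∨ s i = -1) →
        (2 ≤ j ∨ ∀ x y u v : ℕ, 2 ^ x * 3 ^ y * (s 0 * a 0) + 2 ^ u * 3 ^ v * (s (Fin.last j) * a (Fin.last j)) ≠ 0) →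
        ∀ S : Fin (j + 1) → Set ℤ, (∀ i, Invariant (S i)) → ∀ δ : Fin (j + 1) → ℝ, (∀ i, HasDensity (s i) (S i) (δ i)) →
        ∀ ε : ℝ, 0 < ε → ∀ᶠ N : ℕ in atTop, ∀ c : ℤ, ∀ K : Set (Fin (j + 1) → ℝ), Convex ℝ K →
          |({x : Fin (j + 1) → ℤ | (∀ i, 1 ≤ x i ∧ x i ≤ N) ∧ ∑ i, a i * x i = c ∧ Mem K x ∧ ∀ i, s i * x i ∈ S i}.ncard : ℝ)
            - (∏ i, δ i) * {x : Fin (j + 1) → ℤ | (∀ i, 1 ≤ x i ∧ x i ≤ N) ∧ ∑ i, a i * x i = c ∧ Mem K x}.ncard|
            ≤ ε * (N : ℝ) ^ j) ∧
      -- when the probability that two independent random integers of sign `s` are in the same class is `1`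
      (∀ s : ℤ, s = 1 ∨ s = -1 → (∑' a, μ s a ^ 2 = 1 ↔ ∀ x y : ℤ, 0 < s * x → 0 < s * y → Meet x y)) ∧
      -- two forms
      ∀ (r : ℕ) (A B : Fin r → ℤ), A ≠ 0 → B ≠ 0 → ∀ q q' : ℤ,
        (Related A B → AlmostAll fun n => Meet (lin A n + q) (lin B n + q')) ∧
        (¬ Related A B →
          (∀ s : ℤ, s = 1 ∨ s = -1 → ∀ ε : ℝ, 0 < ε → ∀ᶠ N : ℕ in atTop, ∀ K : Set (Fin r → ℝ), Region ![A, B] 0 ![s, s] K →
            |prob N (fun n => Mem K n ∧ Meet (lin A n + q) (lin B n + q')) - prob N (fun n => Mem K n) * ∑' a, μ s a ^ 2| ≤ ε) ∧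
          (∀ s t : ℤ, s = 1 ∨ s = -1 → t = 1 ∨ t = -1 → (∃ w : Fin r → ℤ, (∀ j, 0 < w j) ∧ 0 < s * lin A w ∧ 0 < t * lin B w) →
            ∀ S : Set ℤ, Invariant S → (∃ x ∈ S, 0 < s * x) → ((∀ x : ℤ, 0 < t * x → x ∈ S) ↔
              AlmostAll fun n => 0 < s * lin A n → 0 < t * lin B n → lin A n + q ∈ S → lin B n + q' ∈ S)) ∧
          -- the conjecture of Collatz
          ((∃ w : Fin r → ℤ, (∀ j, 0 < w j) ∧ 0 < lin A w ∧ 0 < lin B w) →
            ((∀ x : ℤ, 0 < x → ∃ k : ℕ, C^[k] x = 1) ↔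
              AlmostAll fun n => 0 < lin A n → 0 < lin B n → Meet (lin A n + q) (lin B n + q'))) ∧
          -- Q1
          ((∃ w : Fin r → ℤ, (∀ j, 0 < w j) ∧ lin A w * lin B w < 0) →
            ((∀ x : ℤ, Reaches x) ↔
              AlmostAll fun n => lin A n * lin B n < 0 → (Reaches (lin A n + q) ↔ Reaches (lin B n + q'))))) := by
  have h : S_CONVU := convu_all
  have hc : S_CONE := cone_all
  obtain ⟨μ, hμ⟩ := exists_laws
  refine ⟨μ, ?_, fun r k A hA => exists_splits hA, fun r m k B g A q s hS hs => joint_law h hμ g q hS.1 hS.2.1 hS.2.2 hs,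
    fun r k A s hA hrel hs => law_unrelatedU h hμ hA hrel hs,
    fun s hs S hS => dens_all hs hS, fun r k A s hA hrel hs S hS δ hd ε hε H => sets_lawU h hA hrel hs hS hd hε H,
    fun s hs S T hS hT δ δ' hd hd' => sum_law h hs hS hT hd hd',
    fun s hs S T hS hT hex hex' => sum_ex h hs hS hT hex hex', sum_one h, sum_collatz h,
    fun j hj a s ha hs hr S hS δ hd ε hε => gen_lin_law h hj ha hs hr hS hd hε,
    fun s hs => (theta_facts hμ hs).2.2.2, fun r A B hA hB q q' => ⟨fun hAB => merge h hA hAB q q', fun hAB => ⟨?_, ?_, ?_, ?_⟩⟩⟩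
  · intro s hs
    exact ⟨hμ.sum s hs, fun a => ⟨fun ha => ⟨(hμ.rep s hs a ha).1, density_of_mz (hμ.rep s hs a ha).2.2⟩, hμ.non s a⟩⟩
  · intro s hs ε hε
    exact meet_lim h hμ hA hB hAB hs q q' hε
  · rintro s t hs ht ⟨w, hw, hwA, hwB⟩ S hS hex
    exact imp_law h hc hA hB hAB q q' hs ht hw hwA hwB hS hex
  · rintro ⟨w, hw, hwA, hwB⟩
    exact collatz_law h hc hμ hA hB hAB q q' hw hwA hwB
  · rintro ⟨w, hw, hwAB⟩
    exact q1_law h hc hA hB hAB q q' hw hwAB

end Pool.Agent.Results.MP_d02c56_nt.LinearPatterns
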