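import Pool.Agent.KS6_24.LI.Fin

/-!
# The sets invariant under the Collatz map contain intervals of length `N ^ c`

Let `S` be a set of integers invariant under the Collatz map `C` and its inverse which contains an integer
of the sign `s` (for instance the set of the integers which reach a given cycle, the set of the
integers which do not reach the known cycles, or the set of the integers whose trajectory meets a given one).
There is an absolute constant `κ` such that:

1. For all large `N` and all `2 ≤ L ≤ N ^ (1 / κ)` the set `S` contains at least `c_S N / L ^ κ` pairwise disjoint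
   intervals of `L` consecutive integers of sign `s` and of absolute value at most `N`, and the
   trajectories of all the `L` integers of such an interval meet at a common time `τ ≤ κ log_2 L`.
2. For each of the cycles of `y = 1, -1, -5, -17` there are, for the same `N` and `L`, at least `c N / L ^ κ`
   disjoint intervals of `L` consecutive integers of absolute value at most `N` which all reach `y`, for the first time
   at the same time. For `y = 1`: runs of `N ^ (1 / κ)` consecutive integers below `N` of equal finite height.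
3. Q1 holds if and only if for both signs and for infinitely many `L`, among any `L` consecutive
   integers of this sign and of absolute value at most `L ^ κ` at least one reaches a known cycle.

The exponent is of the right kind: a block of `L` consecutive integers cannot merge completely before the
time `41.6 log L` of the shortcut map (starting library), so that no residue class modulo a power of two
`2 ^ t ≤ N` merges blocks longer than `N ^ 0.035`.

Method. The iterate `T^t` of the shortcut map is affine, `m ↦ 3 ^ a m + b`, on each residue class modulo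
`2 ^ t`; a block of `L = 2 ^ k` consecutive integers gives a set of such forms. By the mean number
of values (starting library) there is a class modulo `2 ^ (30 k)` with only `O(√k)` different forms, at
levels `a` which still differ by a multiple of `k`; in the typical case they would need the time
`k ^ 2` to merge, because the differences of the levels are recurrent random walks. We choose
the following binary digits one after the other. As long as no other form has the level of the lowest one,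
the digit makes the lowest form odd with probability `11/20`. The other forms then move
towards it with a positive speed: this is shown with a potential, a Green function of the biased walk
with the costs `v_2 (3 ^ i - 1)` of the levels, whose mean decreases by one in each step in spite of
the long waiting times at the levels `i` divisible by high powers of two. If another form
has the lowest level, both are merged by `O(log G)` digits, `G` being the diameter of the normalised
constant terms. A total potential shows that the digits can be chosen so that everything has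
merged after `O(k)` steps. The distribution of the invariant sets in the classes modulo `2 ^ t` (starting
library, level of distribution) then gives the statement.
-/

set_option autoImplicit false

namespace Pool.Agent.Results.MP_d02c56_nt.LongIntervals

/-- The Collatz map on the integers. -/
def C (x : ℤ) : ℤ := if x % 2 = 0 then x / 2 else 3 * x + 1

/-- `S` is invariant under the Collatz map and its inverse. -/
def Invariant (S : Set ℤ) : Prop := ∀ x : ℤ, x ∈ S ↔ C x ∈ S

/-- The elements of the five known cycles. -/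
def known : Set ℤ := {1, 4, 2, -1, -2, -5, -14, -7, -20, -10, -17, -50, -25, -74, -37, -110, -55, -164, -82,
  -41, -122, -61, -182, -91, -272, -136, -68, -34, 0}

/-- The members of `B` are at least `L` apart, so that the intervals `b, b + 1, ..., b + L - 1`, `b ∈ B`, are disjoint. -/
def Spaced (B : Finset ℤ) (L : ℕ) : Prop := ∀ b ∈ B, ∀ b' ∈ B, b < b' → b + L ≤ b'

/-! ### proofs -/

theorem inv_iter {S : Set ℤ} (hS : Invariant S) (k : ℕ) (x : ℤ) : x ∈ S ↔ C^[k] x ∈ S :=
  Pool.Agent.KS6_24.LI.inv_iter hS k x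

/-- The common form of the two signs. -/
theorem both : ∃ C₁ R : ℕ, 1 ≤ C₁ ∧ 8 ≤ R ∧ ∀ s : ℤ, s = 1 ∨ s = -1 → ∀ S : Set ℤ, Invariant S →
    (∃ x ∈ S, 0 < s * x) →
      ∃ A : ℕ, 1 ≤ A ∧ ∀ N : ℕ, A ≤ N → ∀ L : ℕ, 2 ≤ L → (L ^ C₁) ^ R ≤ N → ∃ B : Finset ℤ,
        N ≤ A * B.card * L ^ C₁ ∧ Spaced B L ∧
        ∀ b ∈ B, ∃ τ : ℕ, τ ≤ C₁ * Nat.log 2 L ∧ ∀ h : ℕ, h < L →
          b + h ∈ S ∧ 0 < s * (b + h) ∧ s * (b + h) ≤ N ∧ C^[τ] (b + h) = C^[τ] b := by
  obtain ⟨C₁, R₁, hC₁, hR₁, h1⟩ := Pool.Agent.KS6_24.LI.long (s := 1) (Or.inl rfl)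
  obtain ⟨C₂, R₂, hC₂, hR₂, h2⟩ := Pool.Agent.KS6_24.LI.long (s := -1) (Or.inr rfl)
  refine ⟨max C₁ C₂, max R₁ R₂, hC₁.trans (le_max_left _ _), hR₁.trans (le_max_left _ _), ?_⟩
  have mono : ∀ (C R C' R' : ℕ) (_ : C ≤ C') (_ : R ≤ R') (s : ℤ) (S : Set ℤ),
      (∃ A : ℕ, 1 ≤ A ∧ ∀ N : ℕ, A ≤ N → ∀ L : ℕ, 2 ≤ L → (L ^ C) ^ R ≤ N → ∃ B : Finset ℤ,
        N ≤ A * B.card * L ^ C ∧ Spaced B L ∧
        ∀ b ∈ B, ∃ τ : ℕ, τ ≤ C * Nat.log 2 L ∧ ∀ h : ℕ, h < L →
          b + h ∈ S ∧ 0 < s * (b + h) ∧ s * (b + h) ≤ N ∧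
            LongIntervals.C^[τ] (b + h) = LongIntervals.C^[τ] b) →
      ∃ A : ℕ, 1 ≤ A ∧ ∀ N : ℕ, A ≤ N → ∀ L : ℕ, 2 ≤ L → (L ^ C') ^ R' ≤ N → ∃ B : Finset ℤ,
        N ≤ A * B.card * L ^ C' ∧ Spaced B L ∧
        ∀ b ∈ B, ∃ τ : ℕ, τ ≤ C' * Nat.log 2 L ∧ ∀ h : ℕ, h < L →
          b + h ∈ S ∧ 0 < s * (b + h) ∧ s * (b + h) ≤ N ∧
            LongIntervals.C^[τ] (b + h) = LongIntervals.C^[τ] b := by
    rintro C R C' R' hC hR s S ⟨A, hA1, hA⟩
    refine ⟨A, hA1, fun N hN L hL hLN => ?_⟩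
    have h1 : L ^ C ≤ L ^ C' := Nat.pow_le_pow_right (by omega) hC
    have h2 : 1 ≤ L ^ C' := Nat.one_le_pow _ _ (by omega)
    have h3 : (L ^ C) ^ R ≤ (L ^ C') ^ R' :=
      (Nat.pow_le_pow_left h1 R).trans (Nat.pow_le_pow_right h2 hR)
    obtain ⟨B, hB1, hB2, hB3⟩ := hA N hN L hL (h3.trans hLN)
    refine ⟨B, hB1.trans (Nat.mul_le_mul_left _ h1), hB2, fun b hb => ?_⟩
    obtain ⟨τ, hτ, hh⟩ := hB3 b hb
    exact ⟨τ, hτ.trans (Nat.mul_le_mul_right _ hC), hh⟩
  intro s hs S hS hx
  rcases hs with rfl | rfl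
  · exact mono C₁ R₁ _ _ (le_max_left _ _) (le_max_left _ _) 1 S (h1 S hS hx)
  · exact mono C₂ R₂ _ _ (le_max_right _ _) (le_max_right _ _) (-1) S (h2 S hS hx)

theorem abs_C (x : ℤ) : |x| ≤ 2 * |C x| := by
  unfold C
  split_ifs with h
  · rcases abs_cases x with ⟨h1, _⟩ | ⟨h1, _⟩ <;> rcases abs_cases (x / 2) with ⟨h2, _⟩ | ⟨h2, _⟩ <;> omega
  · rcases abs_cases x with ⟨h1, _⟩ | ⟨h1, _⟩ <;> rcases abs_cases (3 * x + 1) with ⟨h2, _⟩ | ⟨h2, _⟩ <;> omega

theorem abs_iter (j : ℕ) (x : ℤ) : |x| ≤ 2 ^ j * |C^[j] x| := by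
  induction j generalizing x with
  | zero => simp
  | succ j ih =>
    rw [Function.iterate_succ_apply]
    have h1 := abs_C x
    have h2 := ih (C x)
    rw [pow_succ]
    linarith

/-- The basin of a periodic integer is invariant. -/
theorem basin_inv {y : ℤ} {p : ℕ} (hp : C^[p + 1] y = y) : Invariant {x | ∃ k, C^[k] x = y} := by
  intro x
  constructor
  · rintro ⟨k, hk⟩
    cases k with
    | zero =>
      refine ⟨p, ?_⟩
      simp only [Function.iterate_zero, id_eq] at hk
      rw [hk, ← Function.iterate_succ_apply]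
      exact hp
    | succ k => exact ⟨k, by rw [← Function.iterate_succ_apply]; exact hk⟩
  · rintro ⟨k, hk⟩
    exact ⟨k + 1, by rw [Function.iterate_succ_apply]; exact hk⟩

theorem periodic {y : ℤ} (hy : y ∈ ({1, -1, -5, -17} : Set ℤ)) :
    ∃ s : ℤ, (s = 1 ∨ s = -1) ∧ 0 < s * y ∧ |y| ≤ 17 ∧ ∃ p, C^[p + 1] y = y := by
  rcases hy with rfl | rfl | rfl | rfl
  · exact ⟨1, Or.inl rfl, by norm_num, by norm_num, 2, by decide⟩
  · exact ⟨-1, Or.inr rfl, by norm_num, by norm_num, 1, by decide⟩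
  · exact ⟨-1, Or.inr rfl, by norm_num, by norm_num, 4, by decide⟩
  · exact ⟨-1, Or.inr rfl, by norm_num, by norm_num, 17, by decide⟩

theorem part2 {C₁ R : ℕ} (hC₁ : 1 ≤ C₁) (hR : 8 ≤ R)
    (hb : ∀ s : ℤ, s = 1 ∨ s = -1 → ∀ S : Set ℤ, Invariant S → (∃ x ∈ S, 0 < s * x) →
      ∃ A : ℕ, 1 ≤ A ∧ ∀ N : ℕ, A ≤ N → ∀ L : ℕ, 2 ≤ L → (L ^ C₁) ^ R ≤ N → ∃ B : Finset ℤ,
        N ≤ A * B.card * L ^ C₁ ∧ Spaced B L ∧
        ∀ b ∈ B, ∃ τ : ℕ, τ ≤ C₁ * Nat.log 2 L ∧ ∀ h : ℕ, h < L →
          b + h ∈ S ∧ 0 < s * (b + h) ∧ s * (b + h) ≤ N ∧ C^[τ] (b + h) = C^[τ] b)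
    {y : ℤ} (hy : y ∈ ({1, -1, -5, -17} : Set ℤ)) :
    ∃ A : ℕ, ∀ N : ℕ, A ≤ N → ∀ L : ℕ, 2 ≤ L → (L ^ C₁) ^ R ≤ N → ∃ B : Finset ℤ,
      N ≤ A * B.card * L ^ C₁ ∧ Spaced B L ∧
      ∀ b ∈ B, ∃ k : ℕ, ∀ h : ℕ, h < L →
        0 < y * (b + h) ∧ |b + h| ≤ N ∧ IsLeast {j : ℕ | C^[j] (b + h) = y} k := by
  obtain ⟨s, hs, hsy, hy17, p, hp⟩ := periodic hy
  obtain ⟨A, hA1, hA⟩ := hb s hs _ (basin_inv hp) ⟨y, ⟨0, rfl⟩, hsy⟩
  refine ⟨(74 * A) ^ 2, fun N hN L hL hLN => ?_⟩
  have hAA : A ≤ (74 * A) ^ 2 := by nlinarith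
  obtain ⟨B, hB1, hB2, hB3⟩ := hA N (hAA.trans hN) L hL hLN
  obtain ⟨X, hX⟩ : ∃ X : ℕ, X = L ^ C₁ := ⟨_, rfl⟩
  rw [← hX] at hLN hB1 ⊢
  have hLX : L ≤ X := by
    have : L ^ 1 ≤ L ^ C₁ := Nat.pow_le_pow_right (by omega) hC₁
    rw [pow_one, ← hX] at this
    exact this
  have hpowX : ∀ m : ℕ, m ≤ C₁ * Nat.log 2 L → 2 ^ m ≤ X := by
    intro m hm
    calc 2 ^ m ≤ 2 ^ (C₁ * Nat.log 2 L) := Nat.pow_le_pow_right (by norm_num) hm
      _ = (2 ^ Nat.log 2 L) ^ C₁ := by rw [mul_comm, pow_mul]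
      _ ≤ L ^ C₁ := Nat.pow_le_pow_left (Nat.pow_log_le_self 2 (by omega)) _
      _ = X := hX.symm
  have hX4 : X ^ 4 ≤ N := (Nat.pow_le_pow_right (by omega) (by omega)).trans hLN
  have hXA : 74 * A * X ^ 2 ≤ N := by
    have h1 : (74 * A * X ^ 2) ^ 2 ≤ N ^ 2 := by
      calc (74 * A * X ^ 2) ^ 2 = (74 * A) ^ 2 * X ^ 4 := by ring
        _ ≤ N * N := Nat.mul_le_mul hN hX4
        _ = N ^ 2 := by ring
    exact (Nat.pow_le_pow_iff_left (by norm_num)).1 h1
  classical
  -- discard the small members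
  set B' : Finset ℤ := B.filter (fun b => (18 * X : ℤ) < |b|) with hB'
  have hcard : B.card ≤ B'.card + 37 * X := by
    have hsub : B ⊆ B' ∪ Finset.Icc (-(18 * X : ℤ)) (18 * X) := by
      intro b hb
      rw [Finset.mem_union]
      by_cases h : (18 * X : ℤ) < |b|
      · left; rw [hB', Finset.mem_filter]; exact ⟨hb, h⟩
      · right
        push Not at h
        rw [Finset.mem_Icc, ← abs_le]
        exact h
    have h1 := (Finset.card_le_card hsub).trans (Finset.card_union_le _ _)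
    rw [Int.card_Icc] at h1
    omega
  have hcard' : N ≤ (74 * A) ^ 2 * B'.card * X := by
    have h1 : A * B.card * X ≤ A * (B'.card + 37 * X) * X :=
      Nat.mul_le_mul_right _ (Nat.mul_le_mul_left _ hcard)
    have h2 : A * (B'.card + 37 * X) * X = A * B'.card * X + 37 * A * X ^ 2 := by ring
    have h3 : N ≤ 2 * (A * B'.card * X) := by
      have h4 : 74 * A * X ^ 2 = 2 * (37 * A * X ^ 2) := by ring
      omega
    refine h3.trans ?_
    have h5 : 2 * A ≤ (74 * A) ^ 2 := by nlinarith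
    calc 2 * (A * B'.card * X) = 2 * A * (B'.card * X) := by ring
      _ ≤ (74 * A) ^ 2 * (B'.card * X) := Nat.mul_le_mul_right _ h5
      _ = _ := by ring
  refine ⟨B', hcard', ?_, ?_⟩
  · intro b hb b' hb' hlt
    rw [hB', Finset.mem_filter] at hb hb'
    exact hB2 b hb.1 b' hb'.1 hlt
  · intro b hb
    rw [hB', Finset.mem_filter] at hb
    obtain ⟨τ, hτ, hh⟩ := hB3 b hb.1
    have h2τ : (2 : ℤ) ^ τ ≤ X := by exact_mod_cast hpowX τ hτ
    have hLXZ : (L : ℤ) ≤ X := by exact_mod_cast hLX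
    -- nothing of the block is at `y` before the time `τ`
    have hnot : ∀ h : ℕ, h < L → ∀ j : ℕ, j ≤ τ → C^[j] (b + h) ≠ y := by
      intro h hhL j hj heq
      have h1 := abs_iter j (b + h)
      rw [heq] at h1
      have h3 : |b + (h : ℤ)| ≤ 2 ^ j * 17 := h1.trans (mul_le_mul_of_nonneg_left hy17 (by positivity))
      have h4 : (2 : ℤ) ^ j ≤ 2 ^ τ := pow_le_pow_right₀ (by norm_num) hj
      have h5 : (h : ℤ) < L := by exact_mod_cast hhL
      have h6 : |b| ≤ |b + (h : ℤ)| + h := by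
        have e : b = (b + h) - h := by ring
        calc |b| = |(b + (h : ℤ)) - h| := by rw [← e]
          _ ≤ |b + (h : ℤ)| + |(h : ℤ)| := abs_sub _ _
          _ = |b + (h : ℤ)| + h := by rw [abs_of_nonneg (Int.natCast_nonneg h)]
      have h7 := hb.2
      linarith
    have hL0 : 0 < L := by omega
    have hbS := (hh 0 hL0).1
    simp only [Nat.cast_zero, add_zero] at hbS
    obtain ⟨k₀, hk₀⟩ : ∃ k, C^[k] b = y := hbS
    have hex : ∃ k, C^[k] b = y := ⟨k₀, hk₀⟩
    set k := Nat.find hex with hk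
    have hky : C^[k] b = y := Nat.find_spec hex
    have hτk : τ < k := by
      by_contra hcon
      push Not at hcon
      apply hnot 0 hL0 k hcon
      simpa using hky
    refine ⟨k, fun h hhL => ?_⟩
    obtain ⟨q1, q2, q3, q4⟩ := hh h hhL
    have hsy' : ∀ z : ℤ, 0 < s * z → 0 < y * z := by
      intro z hz
      rcases hs with rfl | rfl
      · have h1 : 0 < y := by linarith
        have h2 : 0 < z := by linarith
        positivity
      · have h1 : y < 0 := by linarith
        have h2 : z < 0 := by linarith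
        exact mul_pos_of_neg_of_neg h1 h2
    have hit : ∀ j : ℕ, τ ≤ j → C^[j] (b + h) = C^[j] b := by
      intro j hj
      obtain ⟨i, rfl⟩ : ∃ i, j = i + τ := ⟨j - τ, by omega⟩
      rw [Function.iterate_add_apply, Function.iterate_add_apply, q4]
    refine ⟨hsy' _ q2, ?_, ?_, ?_⟩
    · rw [abs_le]
      rcases hs with rfl | rfl
      · constructor <;> linarith
      · constructor <;> linarith
    · show C^[k] (b + h) = y
      rw [hit k hτk.le, hky]
    · intro j hj
      have hj' : C^[j] (b + h) = y := hj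
      by_contra hcon
      push Not at hcon
      rcases le_or_gt j τ with h1 | h1
      · exact hnot h hhL j h1 hj'
      · rw [hit j h1.le] at hj'
        exact Nat.find_min hex hcon hj'

theorem known_C {x : ℤ} (hx : x ∈ known) : C x ∈ known := by
  simp only [known, Set.mem_insert_iff, Set.mem_singleton_iff] at hx
  rcases hx with rfl | rfl | rfl | rfl | rfl | rfl | rfl | rfl | rfl | rfl | rfl | rfl | rfl | rfl | rfl | rfl |
    rfl | rfl | rfl | rfl | rfl | rfl | rfl | rfl | rfl | rfl | rfl | rfl | rfl <;>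
  · simp only [known, Set.mem_insert_iff, Set.mem_singleton_iff]
    decide

/-- **Theorem.** There is a constant `κ` with the following properties.
(1) Let `S` be a set of integers invariant under the Collatz map `C` and its inverse which contains an integer of sign `s`.
Then there is `A` such that for all `N ≥ A` and all `L ≥ 2` with `L ^ κ ≤ N` there are at least `N / (A L ^ κ)` disjoint
intervals `b, b + 1, ..., b + L - 1`, contained in `S`, of integers of sign `s` and absolute value at most `N`, such that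
the trajectories of all the `L` integers meet at a common time `τ ≤ κ log_2 L`.
(2) For `y = 1, -1, -5, -17` there is `A` such that for all `N ≥ A` and all `L ≥ 2` with `L ^ κ ≤ N` there are at
least `N / (A L ^ κ)` disjoint intervals of `L` integers of the sign of `y` and absolute value at most `N` which all
reach `y`, for the first time after the same number `k` of steps.
(3) Every integer reaches one of the known cycles if and only if for both signs `s` there are
arbitrarily large `L` such that among any `L` consecutive integers of sign `s` and of absolute value at most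
`L ^ κ` at least one reaches one of the known cycles. -/
theorem result : ∃ κ : ℕ,
    (∀ s : ℤ, s = 1 ∨ s = -1 → ∀ S : Set ℤ, Invariant S → (∃ x ∈ S, 0 < s * x) →
      ∃ A : ℕ, ∀ N : ℕ, A ≤ N → ∀ L : ℕ, 2 ≤ L → L ^ κ ≤ N → ∃ B : Finset ℤ,
        N ≤ A * B.card * L ^ κ ∧ Spaced B L ∧
        ∀ b ∈ B, ∃ τ : ℕ, τ ≤ κ * Nat.log 2 L ∧ ∀ h : ℕ, h < L →
          b + h ∈ S ∧ 0 < s * (b + h) ∧ s * (b + h) ≤ N ∧ C^[τ] (b + h) = C^[τ] b) ∧
    (∀ y ∈ ({1, -1, -5, -17} : Set ℤ),
      ∃ A : ℕ, ∀ N : ℕ, A ≤ N → ∀ L : ℕ, 2 ≤ L → L ^ κ ≤ N → ∃ B : Finset ℤ,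
        N ≤ A * B.card * L ^ κ ∧ Spaced B L ∧
        ∀ b ∈ B, ∃ k : ℕ, ∀ h : ℕ, h < L →
          0 < y * (b + h) ∧ |b + h| ≤ N ∧ IsLeast {j : ℕ | C^[j] (b + h) = y} k) ∧
    ((∀ x : ℤ, ∃ k : ℕ, C^[k] x ∈ known) ↔
      ∀ s : ℤ, s = 1 ∨ s = -1 → ∀ L₀ : ℕ, ∃ L : ℕ, L₀ ≤ L ∧
        ∀ b : ℤ, (∀ h : ℕ, h < L → 0 < s * (b + h) ∧ s * (b + h) ≤ (L : ℤ) ^ κ) →
          ∃ h : ℕ, h < L ∧ ∃ k : ℕ, C^[k] (b + h) ∈ known) := by
  obtain ⟨C₁, R, hC₁, hR, hb⟩ := both
  obtain ⟨κ, hκ⟩ : ∃ κ : ℕ, κ = C₁ * R := ⟨_, rfl⟩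
  have hpow : ∀ L : ℕ, L ^ κ = (L ^ C₁) ^ R := fun L => by rw [hκ, pow_mul]
  have hle : ∀ L : ℕ, 2 ≤ L → L ^ C₁ ≤ L ^ κ := fun L hL => by
    rw [hκ]; exact Nat.pow_le_pow_right (by omega) (Nat.le_mul_of_pos_right _ (by omega))
  have hC₁κ : C₁ ≤ κ := by rw [hκ]; exact Nat.le_mul_of_pos_right _ (by omega)
  have part1 : ∀ s : ℤ, s = 1 ∨ s = -1 → ∀ S : Set ℤ, Invariant S → (∃ x ∈ S, 0 < s * x) →
      ∃ A : ℕ, ∀ N : ℕ, A ≤ N → ∀ L : ℕ, 2 ≤ L → L ^ κ ≤ N → ∃ B : Finset ℤ,
        N ≤ A * B.card * L ^ κ ∧ Spaced B L ∧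
        ∀ b ∈ B, ∃ τ : ℕ, τ ≤ κ * Nat.log 2 L ∧ ∀ h : ℕ, h < L →
          b + h ∈ S ∧ 0 < s * (b + h) ∧ s * (b + h) ≤ N ∧ C^[τ] (b + h) = C^[τ] b := by
    intro s hs S hS hx
    obtain ⟨A, -, hA⟩ := hb s hs S hS hx
    refine ⟨A, fun N hN L hL hLN => ?_⟩
    rw [hpow] at hLN
    obtain ⟨B, hB1, hB2, hB3⟩ := hA N hN L hL hLN
    refine ⟨B, hB1.trans (Nat.mul_le_mul_left _ (hle L hL)), hB2, fun b hb => ?_⟩
    obtain ⟨τ, hτ, hh⟩ := hB3 b hb
    exact ⟨τ, hτ.trans (Nat.mul_le_mul_right _ hC₁κ), hh⟩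
  refine ⟨κ, part1, ?_, ?_, ?_⟩
  · intro y hy
    obtain ⟨A, hA⟩ := part2 hC₁ hR hb hy
    refine ⟨A, fun N hN L hL hLN => ?_⟩
    rw [hpow] at hLN
    obtain ⟨B, hB1, hB2, hB3⟩ := hA N hN L hL hLN
    exact ⟨B, hB1.trans (Nat.mul_le_mul_left _ (hle L hL)), hB2, hB3⟩
  · intro hQ s _ L₀
    exact ⟨L₀ + 1, by omega, fun b _ => ⟨0, by omega, hQ _⟩⟩
  · intro hR
    by_contra hcon
    push Not at hcon
    obtain ⟨x, hx⟩ := hcon
    have hx0 : x ≠ 0 := by
      rintro rfl
      exact hx 0 (by simp [known])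
    have hS : Invariant {x : ℤ | ∀ k : ℕ, C^[k] x ∉ known} := by
      intro z
      constructor
      · intro hz k
        have := hz (k + 1)
        rwa [Function.iterate_succ_apply] at this
      · intro hz k
        cases k with
        | zero =>
          intro h2
          exact hz 0 (known_C h2)
        | succ k => rw [Function.iterate_succ_apply]; exact hz k
    obtain ⟨s, hs, hsx⟩ : ∃ s : ℤ, (s = 1 ∨ s = -1) ∧ 0 < s * x := by
      rcases lt_or_gt_of_ne hx0 with h | h
      · exact ⟨-1, Or.inr rfl, by linarith⟩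
      · exact ⟨1, Or.inl rfl, by linarith⟩
    obtain ⟨A, hA⟩ := part1 s hs _ hS ⟨x, hx, hsx⟩
    obtain ⟨L, hL, hL2⟩ := hR s hs (A + 2)
    have hLκ : L ≤ L ^ κ := by
      have h1 := hle L (by omega)
      have h2 : L ^ 1 ≤ L ^ C₁ := Nat.pow_le_pow_right (by omega) hC₁
      rw [pow_one] at h2
      exact h2.trans h1
    obtain ⟨B, hB1, -, hB3⟩ := hA (L ^ κ) (by omega) L (by omega) le_rfl
    have hBne : B.Nonempty := by
      rw [Finset.nonempty_iff_ne_empty]
      rintro rfl
      rw [Finset.card_empty, mul_zero, zero_mul] at hB1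
      omega
    obtain ⟨b, hb⟩ := hBne
    obtain ⟨τ, -, hh⟩ := hB3 b hb
    obtain ⟨h, hhL, k, hk⟩ := hL2 b (fun h hhL => ⟨(hh h hhL).2.1, by exact_mod_cast (hh h hhL).2.2.1⟩)
    exact (hh h hhL).1 k hk

end Pool.Agent.Results.MP_d02c56_nt.LongIntervals
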